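import Pool.Agent.H16.Third21

namespace Pool.Agent.Results.MP_6cabfd_co.Third

open Pool.Agent.H16.Astral

theorem result : ∃ C : Config4 21, (∃ R : Realization ℝ C, ∃ f ∈ symGroup R, f ≠ 1) ∧
    ∀ R : Realization ℝ C, ¬ IsPolycyclic R :=
  Third.main

end Pool.Agent.Results.MP_6cabfd_co.Third
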